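import Pool.Agent.Q62.EL.Ens

/-!
A smooth solution of the Euler equations on `[0, T)` that loses energy at the time `T` has a large
enstrophy at EVERY time before `T`.

Let `U` be the weak limit of `u(t)` as `t → T` and let the energy of `U` be less than the (conserved)
energy `E` of `u` by at least `δ > 0`. Then, with one absolute constant `C` and `Ω(t) = ∫ |∇u(t)|²`:

* `δ³ ≤ C Ω(t) (∫_t^T ∑ ∫ |uᵢ - mᵢ|³ dx ds)²` for all `t < T` and all constant vectors `m`;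
* `δ^(9/4) (T - t) ≤ C E^(9/8) (∫_t^T Ω^(3/4) ds)^(5/2)` for all `t < T`;
* if `Ω(s) ≤ κ (T - s)^(-4/5)` on some interval `[t, T)`, then `δ³ ≤ C E^(3/2) κ^(5/2)`.

In particular no energy is lost if `Ω(s) = o((T - s)^(-4/5))`; and if the velocity is bounded by `B`,
a loss `δ` needs `Ω(t) ≥ c δ³ / (E B (T - t))²` for all `t < T`.

Proof. Let `A_N` be the convolution with the kernel `∏ⱼ c_N cos(π yⱼ)^(2N)`, whose Fourier
coefficients are quotients of binomial coefficients, and `v = u - m`. Then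
`∫ |v|² - ∫ v · A_N v ≤ Ω / (N + 1)`, the derivative of `∫ v · A_N v` is at most `C √N ∑ ∫ |vᵢ|³`
(the derivatives of the kernel have the `L¹` norm at most `2 π √N`), and, as `A_N` has a finite
rank, `∫ v · A_N v` converges as `t → T` to a number which is at most the energy of `U - m`.
Optimise in `N`. For the second part use `∫ |v|³ ≤ C E^(3/4) Ω^(3/4)` and integrate the resulting
differential inequality.
-/

set_option autoImplicit false

open MeasureTheory Set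
open H459R3.NS Pool.Agent.Q62.EL

namespace Pool.Agent.Results.MP_b0497c_an.EnergyLoss

theorem result : ∃ C : ℝ, 0 < C ∧ ∀ (T δ : ℝ) (u : ℝ → V → V) (p : ℝ → V → ℝ) (U : V → V),
    0 < T → IsSol 0 T u p → WeakLimit T u U → 0 < δ → δ ≤ loss u U →
    (∀ (m : V) (X : ℝ → ℝ), ∀ t ∈ Ico 0 T, IntegrableOn X (Ioo t T) →
      (∀ s ∈ Ioo t T, ∑ i, ∫ x in cube, |u s x i - m i| ^ 3 ≤ X s) →
      δ ^ 3 ≤ C * (enstrophy (u t) * (∫ s in t..T, X s) ^ 2)) ∧
    (∀ t ∈ Ico 0 T, IntegrableOn (fun s => enstrophy (u s) ^ (3 / 4 : ℝ)) (Ioo t T) →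
      δ ^ (9 / 4 : ℝ) * (T - t) ≤ C * (energy (u 0) ^ (9 / 8 : ℝ)
        * (∫ s in t..T, enstrophy (u s) ^ (3 / 4 : ℝ)) ^ (5 / 2 : ℝ))) ∧
    (∀ (κ : ℝ), ∀ t ∈ Ico 0 T, (∀ s ∈ Ico t T, enstrophy (u s) ≤ κ * (T - s) ^ (-(4 / 5) : ℝ)) →
      δ ^ 3 ≤ C * (energy (u 0) ^ (3 / 2 : ℝ) * κ ^ (5 / 2 : ℝ))) := by
  obtain ⟨C₂, hC₂, h₂⟩ := loss_int
  obtain ⟨C₃, hC₃, h₃⟩ := loss_rate
  refine ⟨23040 + C₂ + C₃, by positivity, fun T δ u p U hT h hU hδ hl =>
    ⟨fun m X t ht hX hXc => ?_, fun t ht hi => ?_, fun κ t ht hκ => ?_⟩⟩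
  · have h1 := loss_cube h hT hU m ht hX hXc
    have h2 : δ ^ 3 ≤ loss u U ^ 3 := pow_le_pow_left₀ hδ.le hl 3
    have h3 : 0 ≤ enstrophy (u t) * (∫ s in t..T, X s) ^ 2 :=
      mul_nonneg (enstrophy_nonneg _) (sq_nonneg _)
    nlinarith [mul_nonneg (add_pos hC₂ hC₃).le h3]
  · have h1 := h₂ h hT hU hδ hl ht hi
    refine h1.trans (mul_le_mul_of_nonneg_right (by linarith) ?_)
    have h2 := energy_nonneg (u 0)
    have h3 : 0 ≤ ∫ s in t..T, enstrophy (u s) ^ (3 / 4 : ℝ) :=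
      intervalIntegral.integral_nonneg ht.2.le fun s _ => Real.rpow_nonneg (enstrophy_nonneg _) _
    positivity
  · have h1 := h₃ h hT hU ht hκ
    have h2 : δ ^ 3 ≤ loss u U ^ 3 := pow_le_pow_left₀ hδ.le hl 3
    refine (h2.trans h1).trans (mul_le_mul_of_nonneg_right (by linarith) ?_)
    have h2 := energy_nonneg (u 0)
    have h4 : 0 ≤ κ := by
      have h5 := (enstrophy_nonneg (u t)).trans (hκ t ⟨le_rfl, ht.2⟩)
      exact nonneg_of_mul_nonneg_left h5 (Real.rpow_pos_of_pos (sub_pos.2 ht.2) _)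
    positivity

end Pool.Agent.Results.MP_b0497c_an.EnergyLoss
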