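import Pool.Agent.Q62.GD.Main

/-!
Fourier-Galerkin approximations of a smooth periodic solution of the Euler (or Navier-Stokes)
equations up to the time `T`: either the solution is regular up to `T` and the velocity gradients of
all approximations with sufficiently many frequencies are bounded by one constant, or the solution
is singular at `T` and, for each `s < T`, the time integral over `(s, T)` of the maximal strain of
every approximation that contains the frequencies up to `n` is at least `c log n`, for all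
sufficiently large `n`. The constant `c > 0` is absolute.
-/

set_option autoImplicit false

open MeasureTheory Set
open H459R3.NS H459R3.EU Pool.Agent.Q62.GD

namespace Pool.Agent.Results.MP_b0497c_an.GalerkinDichotomy

theorem result : ∃ c : ℝ, 0 < c ∧ ∀ (ν T : ℝ) (u : ℝ → V → V) (p : ℝ → V → ℝ), 0 ≤ ν → 0 < T →
    IsSol ν T u p →
    -- regular case
    ((∃ D : ℝ, ∀ t ∈ Ico 0 T, dsq (u t) ≤ D) ∧
      ∃ (G : ℝ) (n₀ : ℕ), ∀ n ≥ n₀, ∀ Λ : Finset K3, Big n Λ → ∀ v : ℝ → V → V,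
        IsGalerkin Λ ν T (u 0) v →
        ∀ t ∈ Ico 0 T, ∀ x i j, |pd j (fun y => v t y i) x| ≤ G) ∨
    -- singular case
    ((¬∃ D : ℝ, ∀ t ∈ Ico 0 T, dsq (u t) ≤ D) ∧
      ∀ s ∈ Ico 0 T, ∃ n₀ : ℕ, ∀ n ≥ n₀, ∀ Λ : Finset K3, Big n Λ → ∀ v : ℝ → V → V,
        IsGalerkin Λ ν T (u 0) v → ∀ β : ℝ → ℝ, IntegrableOn β (Ioo s T) →
        (∀ t ∈ Ioo s T, StrainLE (v t) (β t)) →
        c * Real.log n ≤ ∫ t in s..T, β t) := by
  refine ⟨1 / 2643840, by norm_num, fun ν T u p hν hT h => ?_⟩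
  by_cases hD : ∃ D : ℝ, ∀ t ∈ Ico 0 T, dsq (u t) ≤ D
  · obtain ⟨D, hD'⟩ := hD
    exact Or.inl ⟨⟨D, hD'⟩, case_reg hν hT h hD'⟩
  · exact Or.inr ⟨hD, fun s hs => case_sing hν h hD hs⟩

end Pool.Agent.Results.MP_b0497c_an.GalerkinDichotomy
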