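import Pool.Agent.Q62.GD.Near

/-!
Nearby solutions see a singularity of the Euler equations, and nothing between bounded and
logarithmic growth is possible. Let `u` be a smooth periodic solution on `[0, T)` with viscosity `ν ≥ 0`
(`ν = 0`: Euler equations) and let `v` be smooth solutions with viscosity `μ ≥ 0`, where
`|μ - ν| ≤ ε`, `‖v(0) - u(0)‖₂ ≤ ε` and `∑ ∫ |∂³v(0)|² ≤ ε ^ (-1/64)`. Either `u` is regular up to `T`,
and then the gradients of all these solutions `v` are bounded by one constant for all small `ε`; or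
`u` is singular at `T`, and then for each `s < T` and all small `ε` all these solutions `v` that are
smooth on `[0, T)` satisfy `∫_s^T max |S(v)| ≥ c log (1 / ε)` with an absolute constant `c > 0`,
where `S(v)` is the strain.

In particular (`ν = 0`, `v(0) = u(0)`, `μ = ε`): if the Navier-Stokes solutions with viscosity `ε`
and the initial velocity `u(0)` exist on `[0, T)` and `∫_s^T max |S| < c log (1 / ε)` for some
`s < T` along a sequence of viscosities tending to zero, the Euler solution is regular up to `T`.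
-/

set_option autoImplicit false

open MeasureTheory Set
open H459R3.NS H459R3.EU Pool.Agent.Q62.GD

namespace Pool.Agent.Results.MP_b0497c_an.NearbySolutions

theorem result : ∃ c : ℝ, 0 < c ∧ ∀ (ν T : ℝ) (u : ℝ → V → V) (p : ℝ → V → ℝ), 0 ≤ ν → 0 < T →
    IsSol ν T u p →
    -- regular case
    ((∃ D : ℝ, ∀ t ∈ Ico 0 T, dsq (u t) ≤ D) ∧
      ∃ G δ : ℝ, 0 < δ ∧ ∀ ε, 0 < ε → ε ≤ δ → ∀ (μ T' : ℝ) (v : ℝ → V → V) (q : ℝ → V → ℝ),
        0 ≤ μ → 0 < T' → T' ≤ T → IsSol μ T' v q → |μ - ν| ≤ ε →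
        energy (fun x => u 0 x - v 0 x) ≤ ε ^ 2 → dsq (v 0) ≤ (1 / ε) ^ (1 / 64 : ℝ) →
        ∀ t ∈ Ico 0 T', ∀ x i j, |pd j (fun y => v t y i) x| ≤ G) ∨
    -- singular case
    ((¬∃ D : ℝ, ∀ t ∈ Ico 0 T, dsq (u t) ≤ D) ∧
      ∀ s ∈ Ico 0 T, ∃ δ : ℝ, 0 < δ ∧ ∀ ε, 0 < ε → ε ≤ δ →
        ∀ (μ : ℝ) (v : ℝ → V → V) (q : ℝ → V → ℝ), 0 ≤ μ → IsSol μ T v q → |μ - ν| ≤ ε →
        energy (fun x => u 0 x - v 0 x) ≤ ε ^ 2 → dsq (v 0) ≤ (1 / ε) ^ (1 / 64 : ℝ) →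
        ∀ β : ℝ → ℝ, IntegrableOn β (Ioo s T) → (∀ t ∈ Ioo s T, StrainLE (v t) (β t)) →
        c * Real.log (1 / ε) ≤ ∫ t in s..T, β t) := by
  refine ⟨1 / 2643840, by norm_num, fun ν T u p hν hT h => ?_⟩
  by_cases hD : ∃ D : ℝ, ∀ t ∈ Ico 0 T, dsq (u t) ≤ D
  · obtain ⟨D, hD'⟩ := hD
    exact Or.inl ⟨⟨D, hD'⟩, near_reg hν hT h hD'⟩
  · exact Or.inr ⟨hD, fun s hs => near_sing hν h hD hs⟩

end Pool.Agent.Results.MP_b0497c_an.NearbySolutions
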