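import Pool.Agent.Q62.SP.Main

/-!
Euler equations: an arbitrarily small, smoothing, symmetric perturbation of the velocity which
transports the vorticity makes a smooth steady flow blow up in finite time.
-/

open MeasureTheory Set Filter Topology
open scoped ContDiff
open H459R3.NS (V pd Per cube)
open Pool.Agent.Q62.SP

namespace Pool.Agent.Results.MP_b0497c_an.SmoothingPerturbation

theorem result : ∀ r : ℝ, 0 < r → ∃ v₀ : V → V, ContDiff ℝ ∞ v₀ ∧ Per v₀ ∧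
    (∀ x, v₀ x 0 = 0 ∧ v₀ x 1 = 0) ∧ (∀ x y : V, x 1 = y 1 → v₀ x = v₀ y) ∧
    ∀ γ δ : ℝ, 0 < γ → γ < 1 → 0 < δ → ∃ A : (V → V) → V → V, Smoothing γ δ r A ∧
      (∀ T v p, Sol A T v p → ∀ t ∈ Ico 0 T,
        ip (v t) (v t) + ip (v t) (A (v t)) = ip (v 0) (v 0) + ip (v 0) (A (v 0))) ∧
      ∃ (T : ℝ) (v : ℝ → V → V), 0 < T ∧ v 0 = v₀ ∧ Sol A T v (fun _ _ => 0) ∧
        ContDiffOn ℝ ∞ (fun z : ℝ × V => v z.1 z.2) (Ico 0 T ×ˢ univ) ∧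
        (∀ t ∈ Ico 0 T, ∀ x, v t x 0 = 0 ∧ v t x 1 = 0 ∧ 0 ≤ v t x 2 ∧ v t x 2 ≤ 1 ∧
          ∀ s : ℝ, v t (x + Pi.single 2 s) = v t x) ∧
        (∀ K : ℝ, ∃ t₀ ∈ Ico 0 T, ∀ t ∈ Ioo t₀ T, ∃ x, K < |pd 1 (fun y => v t y 2) x|) ∧
        ∀ T' v' p', Sol A T' v' p' → v' 0 = v₀ → T' ≤ T ∧ ∀ t ∈ Ico 0 T', v' t = v t :=
  goal

end Pool.Agent.Results.MP_b0497c_an.SmoothingPerturbation
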